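import Pool.Agent.MP_1623fe_an.Mg.Main

open Pool.Agent.MP_1623fe_an in
/-- At an adjacency `(B₀, A₀)` of the phase-lock area `L_r` with `B₀ ≥ 0`, `A₀ > 0` the two
boundary curves `B = g_{r,-}(A)` and `B = g_{r,+}(A)` are not both tangent to the vertical
line `B = B₀`. -/
theorem Pool.Agent.Results.MP_1623fe_an.NotBothTangent.result
    (ω : ℝ) (hω : 0 < ω) (r : ℤ) (B₀ A₀ : ℝ) (hB : 0 ≤ B₀) (hA : 0 < A₀)
    (hminus : gMinus ω r A₀ = B₀) (hplus : gPlus ω r A₀ = B₀) :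
    ¬ (HasDerivAt (gMinus ω r) 0 A₀ ∧ HasDerivAt (gPlus ω r) 0 A₀) :=
  fun h => not_tangent hω r hB hA.ne' hminus hplus h.1
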